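import Pool.Agent.helper10.OM.Spec

/-!
# Project OM (MP_bf63dc_nt), row CNT: counting lemma for weighted 4-cliques
-/

set_option autoImplicit false

namespace Pool.Agent.OM

open Finset Real Pool.Agent.AT Pool.Agent.helper85.FC

section perm

variable {α : Type} (V : Finset α) (f : α → α → α → α → ℝ)

lemma CNT_p12 : ∑ x ∈ V, ∑ y ∈ V, ∑ z ∈ V, ∑ w ∈ V, f x y z w = ∑ y ∈ V, ∑ x ∈ V, ∑ z ∈ V, ∑ w ∈ V, f x y z w :=
  Finset.sum_comm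

lemma CNT_p23 : ∑ x ∈ V, ∑ y ∈ V, ∑ z ∈ V, ∑ w ∈ V, f x y z w = ∑ x ∈ V, ∑ z ∈ V, ∑ y ∈ V, ∑ w ∈ V, f x y z w :=
  Finset.sum_congr rfl fun _ _ => Finset.sum_comm

lemma CNT_p34 : ∑ x ∈ V, ∑ y ∈ V, ∑ z ∈ V, ∑ w ∈ V, f x y z w = ∑ x ∈ V, ∑ y ∈ V, ∑ w ∈ V, ∑ z ∈ V, f x y z w :=
  Finset.sum_congr rfl fun _ _ => Finset.sum_congr rfl fun _ _ => Finset.sum_comm

lemma CNT_o1 : ∑ x ∈ V, ∑ y ∈ V, ∑ z ∈ V, ∑ w ∈ V, f x y z w = ∑ z ∈ V, ∑ w ∈ V, ∑ x ∈ V, ∑ y ∈ V, f x y z w :=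
  (((CNT_p23 V f).trans (CNT_p12 V fun x z y w => f x y z w)).trans (CNT_p34 V fun z x y w => f x y z w)).trans
    (CNT_p23 V fun z x w y => f x y z w)

lemma CNT_o2 : ∑ x ∈ V, ∑ y ∈ V, ∑ z ∈ V, ∑ w ∈ V, f x y z w = ∑ y ∈ V, ∑ w ∈ V, ∑ x ∈ V, ∑ z ∈ V, f x y z w :=
  ((CNT_p12 V f).trans (CNT_p34 V fun y x z w => f x y z w)).trans (CNT_p23 V fun y x w z => f x y z w)

lemma CNT_o3 : ∑ x ∈ V, ∑ y ∈ V, ∑ z ∈ V, ∑ w ∈ V, f x y z w = ∑ y ∈ V, ∑ z ∈ V, ∑ x ∈ V, ∑ w ∈ V, f x y z w :=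
  (CNT_p12 V f).trans (CNT_p23 V fun y x z w => f x y z w)

lemma CNT_o4 : ∑ x ∈ V, ∑ y ∈ V, ∑ z ∈ V, ∑ w ∈ V, f x y z w = ∑ x ∈ V, ∑ w ∈ V, ∑ y ∈ V, ∑ z ∈ V, f x y z w :=
  (CNT_p34 V f).trans (CNT_p23 V fun x y w z => f x y z w)

end perm

/-- the bound for one exchange -/
lemma CNT_step {α : Type} (V : Finset α) (G : α → α → ℝ) (E : ℝ)
    (h : ∀ φ ψ : α → ℝ, (∀ x, |φ x| ≤ 1) → (∀ x, |ψ x| ≤ 1) → |∑ x ∈ V, ∑ y ∈ V, G x y * φ x * ψ y| ≤ E)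
    (a b : α → α → α → ℝ) (c : α → α → ℝ) (ha : ∀ z w x, |a z w x| ≤ 1) (hb : ∀ z w x, |b z w x| ≤ 1)
    (hc : ∀ z w, |c z w| ≤ 1) :
    |∑ z ∈ V, ∑ w ∈ V, ∑ x ∈ V, ∑ y ∈ V, G x y * a z w x * b z w y * c z w| ≤ E * (#V : ℝ) ^ 2 := by
  have hE : 0 ≤ E := (abs_nonneg _).trans (h (fun _ => 0) (fun _ => 0) (fun _ => by simp) (fun _ => by simp))
  have h1 : ∀ z w, |∑ x ∈ V, ∑ y ∈ V, G x y * a z w x * b z w y * c z w| ≤ E := by
    intro z w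
    have h2 : ∑ x ∈ V, ∑ y ∈ V, G x y * a z w x * b z w y * c z w =
        (∑ x ∈ V, ∑ y ∈ V, G x y * a z w x * b z w y) * c z w := by
      rw [Finset.sum_mul]
      refine Finset.sum_congr rfl fun x _ => ?_
      rw [Finset.sum_mul]
    rw [h2, abs_mul]
    calc |∑ x ∈ V, ∑ y ∈ V, G x y * a z w x * b z w y| * |c z w| ≤ E * 1 :=
          mul_le_mul (h (a z w) (b z w) (ha z w) (hb z w)) (hc z w) (abs_nonneg _) hE
      _ = E := mul_one E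
  calc |∑ z ∈ V, ∑ w ∈ V, ∑ x ∈ V, ∑ y ∈ V, G x y * a z w x * b z w y * c z w|
      ≤ ∑ z ∈ V, |∑ w ∈ V, ∑ x ∈ V, ∑ y ∈ V, G x y * a z w x * b z w y * c z w| := Finset.abs_sum_le_sum_abs _ _
    _ ≤ ∑ z ∈ V, ∑ w ∈ V, |∑ x ∈ V, ∑ y ∈ V, G x y * a z w x * b z w y * c z w| :=
        Finset.sum_le_sum fun z _ => Finset.abs_sum_le_sum_abs _ _
    _ ≤ ∑ _z ∈ V, ∑ _w ∈ V, E := Finset.sum_le_sum fun z _ => Finset.sum_le_sum fun w _ => h1 z w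
    _ = E * (#V : ℝ) ^ 2 := by
        rw [Finset.sum_const, Finset.sum_const, nsmul_eq_mul, nsmul_eq_mul]
        ring

/-- the sum with six kernels -/
def CNT_S {α : Type} (V : Finset α) (a b c d e f : α → α → ℝ) : ℝ :=
  ∑ x ∈ V, ∑ y ∈ V, ∑ z ∈ V, ∑ w ∈ V, a x y * b x z * c x w * d y z * e y w * f z w

lemma CNT_mul {x y : ℝ} (hx : |x| ≤ 1) (hy : |y| ≤ 1) : |x * y| ≤ 1 := by
  rw [abs_mul]
  exact mul_le_one₀ hx (abs_nonneg _) hy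

section steps

variable {α : Type} (V : Finset α) (U W : α → α → ℝ) (E : ℝ)
    (h : ∀ φ ψ : α → ℝ, (∀ x, |φ x| ≤ 1) → (∀ x, |ψ x| ≤ 1) → |∑ x ∈ V, ∑ y ∈ V, (U x y - W x y) * φ x * ψ y| ≤ E)

include h

lemma CNT_s1 (b c d e f : α → α → ℝ) (hb : ∀ x y, |b x y| ≤ 1) (hc : ∀ x y, |c x y| ≤ 1) (hd : ∀ x y, |d x y| ≤ 1)
    (he : ∀ x y, |e x y| ≤ 1) (hf : ∀ x y, |f x y| ≤ 1) :
    |CNT_S V U b c d e f - CNT_S V W b c d e f| ≤ E * (#V : ℝ) ^ 2 := by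
  have h1 := CNT_step V (fun x y => U x y - W x y) E h (fun z w x => b x z * c x w) (fun z w y => d y z * e y w) f
    (fun z w x => CNT_mul (hb _ _) (hc _ _)) (fun z w y => CNT_mul (hd _ _) (he _ _)) hf
  have h2 : CNT_S V U b c d e f - CNT_S V W b c d e f = ∑ z ∈ V, ∑ w ∈ V, ∑ x ∈ V, ∑ y ∈ V,
      (U x y - W x y) * (b x z * c x w) * (d y z * e y w) * f z w := by
    unfold CNT_S
    simp only [← Finset.sum_sub_distrib]
    rw [CNT_o1 V]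
    refine Finset.sum_congr rfl fun z _ => Finset.sum_congr rfl fun w _ => Finset.sum_congr rfl fun x _ =>
      Finset.sum_congr rfl fun y _ => ?_
    ring
  rw [h2]
  exact h1

lemma CNT_s2 (a c d e f : α → α → ℝ) (ha : ∀ x y, |a x y| ≤ 1) (hc : ∀ x y, |c x y| ≤ 1) (hd : ∀ x y, |d x y| ≤ 1)
    (he : ∀ x y, |e x y| ≤ 1) (hf : ∀ x y, |f x y| ≤ 1) :
    |CNT_S V a U c d e f - CNT_S V a W c d e f| ≤ E * (#V : ℝ) ^ 2 := by
  have h1 := CNT_step V (fun x y => U x y - W x y) E h (fun y w x => a x y * c x w) (fun y w z => d y z * f z w) e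
    (fun z w x => CNT_mul (ha _ _) (hc _ _)) (fun z w y => CNT_mul (hd _ _) (hf _ _)) he
  have h2 : CNT_S V a U c d e f - CNT_S V a W c d e f = ∑ y ∈ V, ∑ w ∈ V, ∑ x ∈ V, ∑ z ∈ V,
      (U x z - W x z) * (a x y * c x w) * (d y z * f z w) * e y w := by
    unfold CNT_S
    simp only [← Finset.sum_sub_distrib]
    rw [CNT_o2 V]
    refine Finset.sum_congr rfl fun z _ => Finset.sum_congr rfl fun w _ => Finset.sum_congr rfl fun x _ =>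
      Finset.sum_congr rfl fun y _ => ?_
    ring
  rw [h2]
  exact h1

lemma CNT_s3 (a b d e f : α → α → ℝ) (ha : ∀ x y, |a x y| ≤ 1) (hb : ∀ x y, |b x y| ≤ 1) (hd : ∀ x y, |d x y| ≤ 1)
    (he : ∀ x y, |e x y| ≤ 1) (hf : ∀ x y, |f x y| ≤ 1) :
    |CNT_S V a b U d e f - CNT_S V a b W d e f| ≤ E * (#V : ℝ) ^ 2 := by
  have h1 := CNT_step V (fun x y => U x y - W x y) E h (fun y z x => a x y * b x z) (fun y z w => e y w * f z w) d
    (fun z w x => CNT_mul (ha _ _) (hb _ _)) (fun z w y => CNT_mul (he _ _) (hf _ _)) hd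
  have h2 : CNT_S V a b U d e f - CNT_S V a b W d e f = ∑ y ∈ V, ∑ z ∈ V, ∑ x ∈ V, ∑ w ∈ V,
      (U x w - W x w) * (a x y * b x z) * (e y w * f z w) * d y z := by
    unfold CNT_S
    simp only [← Finset.sum_sub_distrib]
    rw [CNT_o3 V]
    refine Finset.sum_congr rfl fun z _ => Finset.sum_congr rfl fun w _ => Finset.sum_congr rfl fun x _ =>
      Finset.sum_congr rfl fun y _ => ?_
    ring
  rw [h2]
  exact h1

lemma CNT_s4 (a b c e f : α → α → ℝ) (ha : ∀ x y, |a x y| ≤ 1) (hb : ∀ x y, |b x y| ≤ 1) (hc : ∀ x y, |c x y| ≤ 1)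
    (he : ∀ x y, |e x y| ≤ 1) (hf : ∀ x y, |f x y| ≤ 1) :
    |CNT_S V a b c U e f - CNT_S V a b c W e f| ≤ E * (#V : ℝ) ^ 2 := by
  have h1 := CNT_step V (fun x y => U x y - W x y) E h (fun x w y => a x y * e y w) (fun x w z => b x z * f z w) c
    (fun z w x => CNT_mul (ha _ _) (he _ _)) (fun z w y => CNT_mul (hb _ _) (hf _ _)) hc
  have h2 : CNT_S V a b c U e f - CNT_S V a b c W e f = ∑ x ∈ V, ∑ w ∈ V, ∑ y ∈ V, ∑ z ∈ V,
      (U y z - W y z) * (a x y * e y w) * (b x z * f z w) * c x w := by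
    unfold CNT_S
    simp only [← Finset.sum_sub_distrib]
    rw [CNT_o4 V]
    refine Finset.sum_congr rfl fun z _ => Finset.sum_congr rfl fun w _ => Finset.sum_congr rfl fun x _ =>
      Finset.sum_congr rfl fun y _ => ?_
    ring
  rw [h2]
  exact h1

lemma CNT_s5 (a b c d f : α → α → ℝ) (ha : ∀ x y, |a x y| ≤ 1) (hb : ∀ x y, |b x y| ≤ 1) (hc : ∀ x y, |c x y| ≤ 1)
    (hd : ∀ x y, |d x y| ≤ 1) (hf : ∀ x y, |f x y| ≤ 1) :
    |CNT_S V a b c d U f - CNT_S V a b c d W f| ≤ E * (#V : ℝ) ^ 2 := by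
  have h1 := CNT_step V (fun x y => U x y - W x y) E h (fun x z y => a x y * d y z) (fun x z w => c x w * f z w) b
    (fun z w x => CNT_mul (ha _ _) (hd _ _)) (fun z w y => CNT_mul (hc _ _) (hf _ _)) hb
  have h2 : CNT_S V a b c d U f - CNT_S V a b c d W f = ∑ x ∈ V, ∑ z ∈ V, ∑ y ∈ V, ∑ w ∈ V,
      (U y w - W y w) * (a x y * d y z) * (c x w * f z w) * b x z := by
    unfold CNT_S
    simp only [← Finset.sum_sub_distrib]
    rw [CNT_p23 V]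
    refine Finset.sum_congr rfl fun z _ => Finset.sum_congr rfl fun w _ => Finset.sum_congr rfl fun x _ =>
      Finset.sum_congr rfl fun y _ => ?_
    ring
  rw [h2]
  exact h1

lemma CNT_s6 (a b c d e : α → α → ℝ) (ha : ∀ x y, |a x y| ≤ 1) (hb : ∀ x y, |b x y| ≤ 1) (hc : ∀ x y, |c x y| ≤ 1)
    (hd : ∀ x y, |d x y| ≤ 1) (he : ∀ x y, |e x y| ≤ 1) :
    |CNT_S V a b c d e U - CNT_S V a b c d e W| ≤ E * (#V : ℝ) ^ 2 := by
  have h1 := CNT_step V (fun x y => U x y - W x y) E h (fun x y z => b x z * d y z) (fun x y w => c x w * e y w) a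
    (fun z w x => CNT_mul (hb _ _) (hd _ _)) (fun z w y => CNT_mul (hc _ _) (he _ _)) ha
  have h2 : CNT_S V a b c d e U - CNT_S V a b c d e W = ∑ x ∈ V, ∑ y ∈ V, ∑ z ∈ V, ∑ w ∈ V,
      (U z w - W z w) * (b x z * d y z) * (c x w * e y w) * a x y := by
    unfold CNT_S
    simp only [← Finset.sum_sub_distrib]
    refine Finset.sum_congr rfl fun z _ => Finset.sum_congr rfl fun w _ => Finset.sum_congr rfl fun x _ =>
      Finset.sum_congr rfl fun y _ => ?_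
    ring
  rw [h2]
  exact h1

end steps

theorem CNT : CNT_stmt := by
  intro α V U W E hU hW h
  have hu : ∀ x y, |U x y| ≤ 1 := fun x y => by rw [abs_of_nonneg (hU x y).1]; exact (hU x y).2
  have hw : ∀ x y, |W x y| ≤ 1 := fun x y => by rw [abs_of_nonneg (hW x y).1]; exact (hW x y).2
  have h1 := (abs_le.1 (CNT_s1 V U W E h W W W W W hw hw hw hw hw)).1
  have h2 := (abs_le.1 (CNT_s2 V U W E h U W W W W hu hw hw hw hw)).1
  have h3 := (abs_le.1 (CNT_s3 V U W E h U U W W W hu hu hw hw hw)).1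
  have h4 := (abs_le.1 (CNT_s4 V U W E h U U U W W hu hu hu hw hw)).1
  have h5 := (abs_le.1 (CNT_s5 V U W E h U U U U W hu hu hu hu hw)).1
  have h6 := (abs_le.1 (CNT_s6 V U W E h U U U U U hu hu hu hu hu)).1
  have e1 : K4 V W = CNT_S V W W W W W W := rfl
  have e2 : K4 V U = CNT_S V U U U U U U := rfl
  rw [e1, e2]
  linarith

end Pool.Agent.OM
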